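import Pool.Agent.H667.IP.Named

set_option autoImplicit false

/-!
Automorphism groups modulo interchangeability.
-/

namespace Pool.Agent.H667.IP

open Set MeasureTheory
open Pool.Agent.H533R2.VO (RS RIso VC Dich)
open Pool.Agent.H533R2.VS
open Pool.Agent.Helper27.CF (Cli Complete Aut NoFree closed_aut)
open Pool.Agent.H565R2.FO2 (Interp)
open Pool.Agent.H667.FI (IsAut Sw Enm sw_refl sw_symm sw_trans aut_of_sw sw_map exists_enm enm_mem
  aut_trans)

variable {a : ℕ → ℕ}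

/-- no free group of rank two, modulo interchangeability -/
def NoFreeM (G : Set (Equiv.Perm ℕ)) : Prop :=
  ¬ ∃ φ : FreeGroup (Fin 2) →* Equiv.Perm ℕ, (∀ w, φ w ∈ G) ∧
    ∀ w, w ≠ 1 → ∃ y, Equiv.swap (φ w y) y ∉ G

/-- limits, modulo interchangeability, meet all classes -/
def LimM (G : Set (Equiv.Perm ℕ)) : Prop :=
  ∀ f : ℕ → ℕ, (∀ n, ∃ σ ∈ G, ∀ i < n, Equiv.swap (σ i) (f i) ∈ G) → ∀ y, ∃ z,
    Equiv.swap (f z) y ∈ G

/-- the orbits have finitely many classes -/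
def FinM (G : Set (Equiv.Perm ℕ)) : Prop :=
  ∀ y, ∃ F : Finset ℕ, ∀ σ ∈ G, ∃ t ∈ F, Equiv.swap (σ y) t ∈ G

/-- the automorphisms -/
def AS (x : RS a) : Set (Equiv.Perm ℕ) := {σ | ∀ (i : ℕ) (v : Fin (a i) → ℕ), x i (⇑σ ∘ v) = x i v}

theorem itc_mem (x : RS a) (y z : ℕ) : Itc x y z ↔ Equiv.swap y z ∈ AS x := Iff.rfl

theorem cliMod_iff (x : RS a) : CliMod x ↔ LimM (AS x) := Iff.rfl

theorem enm_unique' {L : FirstOrder.Language.{0, 0}} {I : Interp L ℕ} {e e' : ℕ → ℕ}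
    (he : Enm I e) (he' : Enm I e') :
    ∃ g : ℕ ≃ ℕ, IsAut I g ∧ (∀ x, e' (g x) = e x) ∧ ∀ x, Sw I x (g x) := by
  choose f hf1 hf2 using fun x => enm_mem he he' x
  choose f' hf1' hf2' using fun x => enm_mem he' he x
  let g : ℕ ≃ ℕ :=
    { toFun := f
      invFun := f'
      left_inv := by
        intro x
        apply he.1 _ _ (sw_symm (sw_trans (hf1 x) (hf1' (f x))))
        rw [hf2', hf2]
      right_inv := by
        intro x
        apply he'.1 _ _ (sw_symm (sw_trans (hf1' x) (hf1 (f' x))))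
        rw [hf2, hf2'] }
  exact ⟨g, aut_of_sw g hf1, hf2, hf1⟩

theorem norm {x : RS a} {e : ℕ → ℕ} (he : Enm (it x) e) {σ : Equiv.Perm ℕ} (hσ : σ ∈ AS x) :
    ∃ g ∈ AS x, (∀ z, e (g z) = e z) ∧ ∀ z, Sw (it x) (σ z) (g z) := by
  have h1 : Enm (it x) fun z => e (σ.symm z) := by
    refine (enm_map σ hσ fun z => ?_).1 he
    simp
  obtain ⟨h, h2, h3, h4⟩ := enm_unique' h1 he
  have h2' := (aut_it x h).1 h2
  refine ⟨σ.trans h, fun i v => ?_, fun z => ?_, fun z => h4 _⟩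
  · have := h2' i (⇑σ ∘ v)
    rw [hσ i v] at this
    exact this
  · show e (h (σ z)) = e z
    rw [h3]
    simp

theorem mod_of_named {x : RS a} (hx : Named Cli x) : CliMod x := by
  intro f hf y
  obtain ⟨e, he⟩ := exists_enm (it x)
  let p : ℕ → ℕ → Bool := jn (fun _ _ => false) e
  have hp : Sep x p := by
    intro y z hyz h
    refine he.1 y z ((itc_iff _ _ _).1 hyz) ?_
    have h1 := h (2 * e z + 1)
    simp only [p, jn_odd] at h1
    simp only [decide_true, decide_eq_true_eq] at h1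
    exact h1
  choose σ hσ1 hσ2 using hf
  choose g hg1 hg2 hg3 using fun n => norm he (hσ1 n)
  have hft : ∀ z, ∃ t, Sw (it x) (f z) t ∧ e t = e z := by
    intro z
    refine ⟨g (z + 1) z, ?_, hg2 _ z⟩
    exact sw_trans (sw_symm ((itc_iff _ _ _).1 (hσ2 (z + 1) z (by omega)))) (hg3 _ z)
  choose t ht1 ht2 using hft
  have hev : evn (cmb x p) = x := ((t_CMB a).1 _ _).1
  have hod : odd (cmb x p) = p := ((t_CMB a).1 _ _).2
  have hlim : ∀ n, ∃ τ ∈ Aut (cmb x p), ∀ i < n, τ i = t i := by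
    intro n
    refine ⟨g n, ?_, fun i hi => ?_⟩
    · have hR : UIso (x, p) (x, p) := by
        refine ⟨g n, hg1 n, fun k z => ?_⟩
        show p k (g n z) = p k z
        rcases Nat.even_or_odd' k with ⟨m, rfl | rfl⟩
        · simp only [p, jn_even]
        · simp only [p, jn_odd, hg2 n z]
      intro i v
      show cmb x p i (⇑(g n) ∘ v) = cmb x p i v
      unfold cmb
      split_ifs with hn
      · exact hg1 n (i / 2) _
      · show p (i / 2) (g n (v ⟨0, a1_odd' a hn⟩)) = _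
        generalize v ⟨0, a1_odd' a hn⟩ = z
        rcases Nat.even_or_odd' (i / 2) with ⟨m, hm | hm⟩
        · rw [hm]; simp only [p, jn_even]
        · rw [hm]; simp only [p, jn_odd, hg2 n z]
    · refine he.1 _ _ ?_ (by rw [hg2, ht2])
      have s1 := (itc_iff _ _ _).1 (hσ2 n i hi)
      exact sw_trans (sw_symm (hg3 n i)) (sw_trans s1 (ht1 i))
  obtain ⟨z, hz⟩ := (hx p hp) t hlim y
  refine ⟨z, (itc_iff _ _ _).2 ?_⟩
  rw [← hz]
  exact ht1 z

theorem aut_cmb_mem {x : RS a} {p : ℕ → ℕ → Bool} {σ : Equiv.Perm ℕ}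
    (hσ : σ ∈ Aut (cmb x p)) : σ ∈ AS x ∧ ∀ k z, p k (σ z) = p k z := by
  have hev : evn (cmb x p) = x := ((t_CMB a).1 _ _).1
  have hod : odd (cmb x p) = p := ((t_CMB a).1 _ _).2
  constructor
  · intro i v
    conv_rhs => rw [← hev]
    conv_lhs => rw [← hev]
    exact hσ (2 * i) _
  · intro k z
    conv_rhs => rw [← hod]
    conv_lhs => rw [← hod]
    exact hσ (2 * k + 1) _

theorem named_of_noFree {x : RS a} (hx : NoFreeM (AS x)) : Named Cli x := by
  intro p hp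
  refine NoFree.complete ?_ (closed_aut _)
  rintro ⟨φ, h1, h2⟩
  refine hx ⟨φ, fun w => (aut_cmb_mem (h2 w)).1, fun w hw => ?_⟩
  have h3 : φ w ≠ 1 := fun h => hw (h1 (by rw [h, map_one]))
  have h4 : ∃ y, φ w y ≠ y := by
    by_contra hcon
    push Not at hcon
    exact h3 (Equiv.ext hcon)
  obtain ⟨y, hy⟩ := h4
  exact ⟨y, fun h => hy (hp _ _ h fun k => (aut_cmb_mem (h2 w)).2 k y)⟩

theorem named_of_cli {x : RS a} (hx : Cli x) : Named Cli x := by
  intro p _
  refine Pool.Agent.Helper27.CF.Complete.anti hx ?_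
  intro σ hσ
  exact (aut_cmb_mem hσ).1

theorem base_eq : (fun x : RS a => NoFreeM (AS x) ∨ LimM (AS x)) = Named Cli := by
  funext x
  refine propext ⟨?_, fun h => Or.inr (mod_of_named h)⟩
  rintro (h | h)
  · exact named_of_noFree h
  · exact named_of_mod h

theorem lim_of_fin {x : RS a} (hx : FinM (AS x)) : LimM (AS x) := by
  intro f hf y
  obtain ⟨F, hF⟩ := hx y
  obtain ⟨σ, h1, h2⟩ := hf (F.sup id + 1)
  have h3 : σ.symm ∈ AS x := by
    intro i v
    have h4 : ⇑σ ∘ (⇑σ.symm ∘ v) = v := by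
      funext k
      simp
    rw [← h1, h4]
  obtain ⟨t, ht, h4⟩ := hF σ.symm h3
  refine ⟨t, ?_⟩
  have h5 : t < F.sup id + 1 := Nat.lt_succ_of_le (Finset.le_sup (f := id) ht)
  have h6 := h2 t h5
  have s1 : Sw (it x) (σ.symm y) t := (itc_iff _ _ _).1 h4
  have s2 : Sw (it x) (σ t) (f t) := (itc_iff _ _ _).1 h6
  have s3 := (sw_map (I := it x) (I' := it x) σ (map_it h1) (σ.symm y) t).1 s1
  rw [Equiv.apply_symm_apply] at s3
  exact (itc_iff _ _ _).2 (sw_symm (sw_trans s3 s2))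

theorem base_vcu (a : ℕ → ℕ) : VCu (fun x : RS a => NoFreeM (AS x) ∨ LimM (AS x)) := by
  rw [base_eq]
  exact named_vcu (Pool.Agent.Helper27.CF.vcu_cli _)

theorem base_coan (a : ℕ → ℕ) : Coan (fun x : RS a => NoFreeM (AS x) ∨ LimM (AS x)) := by
  rw [base_eq]
  exact named_coan (Pool.Agent.Helper27.CF.coan_cli _)

theorem base_inv (a : ℕ → ℕ) : Inv (fun x : RS a => NoFreeM (AS x) ∨ LimM (AS x)) := by
  rw [base_eq]
  exact named_inv (Pool.Agent.Helper27.CF.inv_cli _)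

end Pool.Agent.H667.IP
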