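import Pool.Agent.H667.IP.Base
import Pool.Graph.R_seed8.TH425.FF.Cun

set_option autoImplicit false

/-!
Structures which are locally finite modulo interchangeability.
-/

namespace Pool.Agent.H667.IP

open Set MeasureTheory
open Pool.Agent.H533R2.VO (RS RIso VC Dich)
open Pool.Agent.H533R2.VS
open Pool.Agent.H667.FI (IsAut Sw sw_refl sw_symm sw_trans sw_map)

variable {a : ℕ → ℕ}

/-- two points occur together in a tuple -/
def Lk (x : RS a) (u v : ℕ) : Prop :=
  ∃ (i : ℕ) (t : Fin (a i) → ℕ), x i t = true ∧ (∃ j, t j = u) ∧ ∃ j, t j = v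

/-- locally finite modulo interchangeability -/
def LFM (x : RS a) : Prop := ∀ (i : ℕ) (y : ℕ), ∃ F : Finset ℕ, ∀ t : Fin (a i) → ℕ,
  x i t = true → (∃ j, t j = y) → ∀ l, ∃ s ∈ F, Itc x (t l) s

theorem itc_refl (x : RS a) (y : ℕ) : Itc x y y := (itc_iff x y y).2 (sw_refl _ y)

theorem itc_symm {x : RS a} {y z : ℕ} (h : Itc x y z) : Itc x z y :=
  (itc_iff x z y).2 (sw_symm ((itc_iff x y z).1 h))

theorem itc_trans {x : RS a} {u v w : ℕ} (h : Itc x u v) (h' : Itc x v w) : Itc x u w :=
  (itc_iff x u w).2 (sw_trans ((itc_iff x u v).1 h) ((itc_iff x v w).1 h'))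

theorem itc_map {x : RS a} {σ : Equiv.Perm ℕ} (hσ : σ ∈ AS x) (y z : ℕ) :
    Itc x y z ↔ Itc x (σ y) (σ z) := by
  rw [itc_iff, itc_iff]
  exact sw_map σ (map_it hσ) y z

theorem as_symm {x : RS a} {σ : Equiv.Perm ℕ} (hσ : σ ∈ AS x) : σ.symm ∈ AS x := by
  intro i v
  have h4 : ⇑σ ∘ (⇑σ.symm ∘ v) = v := by
    funext k
    simp
  rw [← hσ, h4]

/-- A swap moves points inside the classes. -/
theorem itc_swap {x : RS a} {u s : ℕ} (h : Itc x u s) (p : ℕ) : Itc x p (Equiv.swap u s p) := by
  by_cases h1 : p = u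
  · subst h1; rw [Equiv.swap_apply_left]; exact h
  · by_cases h2 : p = s
    · subst h2; rw [Equiv.swap_apply_right]; exact itc_symm h
    · rw [Equiv.swap_apply_of_ne_of_ne h1 h2]; exact itc_refl x p

theorem lim_of_conn {x : RS a} (hx : LFM x) (hc : ∀ p q, Relation.ReflTransGen (Lk x) p q) :
    LimM (AS x) := by
  intro f hf y
  have key : ∀ q, Relation.ReflTransGen (Lk x) (f 0) q → ∃ F : Finset ℕ, ∀ σ ∈ AS x,
      Itc x (σ 0) (f 0) → ∃ s ∈ F, Itc x (σ.symm q) s := by
    intro q hq
    induction hq with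
    | refl =>
      refine ⟨{0}, fun σ hσ h0 => ⟨0, Finset.mem_singleton_self 0, ?_⟩⟩
      have h1 := (itc_map (as_symm hσ) (σ 0) (f 0)).1 h0
      rw [Equiv.symm_apply_apply] at h1
      exact itc_symm h1
    | @tail q q' _ hl ih =>
      obtain ⟨F, hF⟩ := ih
      obtain ⟨i, t, ht, ⟨j, hj⟩, j', hj'⟩ := hl
      choose G hG using hx i
      refine ⟨F.biUnion G, fun σ hσ h0 => ?_⟩
      obtain ⟨s, hs, hqs⟩ := hF σ hσ h0
      have h1 : x i (⇑(Equiv.swap (σ.symm q) s) ∘ (⇑σ.symm ∘ t)) = true := by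
        rw [hqs, as_symm hσ, ht]
      obtain ⟨s', hs', h2⟩ := hG s _ h1 ⟨j, by simp [hj]⟩ j'
      refine ⟨s', Finset.mem_biUnion.2 ⟨s, hs, hs'⟩, ?_⟩
      have h3 := itc_swap hqs (σ.symm q')
      refine itc_trans h3 ?_
      have h4 : (⇑(Equiv.swap (σ.symm q) s) ∘ (⇑σ.symm ∘ t)) j' =
          Equiv.swap (σ.symm q) s (σ.symm q') := by
        show Equiv.swap (σ.symm q) s (σ.symm (t j')) = _
        rw [hj']
      rw [h4] at h2
      exact h2
  obtain ⟨F, hF⟩ := key y (hc _ _)
  obtain ⟨σ, h1, h2⟩ := hf (F.sup id + 1)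
  obtain ⟨s, hs, h3⟩ := hF σ h1 (h2 0 (by omega))
  have h4 : s < F.sup id + 1 := Nat.lt_succ_of_le (Finset.le_sup (f := id) hs)
  have h5 := (itc_map h1 (σ.symm y) s).1 h3
  rw [Equiv.apply_symm_apply] at h5
  exact ⟨s, itc_symm (itc_trans h5 (h2 s h4))⟩

/-- All infinite components of a structure which is locally finite modulo interchangeability are
complete modulo interchangeability. -/
theorem comp_of_lfm {x : RS a} (hx : LFM x) (u : ℕ) (e : ℕ → ℕ) (he : Function.Injective e)
    (hu : ∀ z, Relation.ReflTransGen (Lk x) u z ↔ ∃ n, e n = z) :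
    LimM (AS (fun i v => x i (e ∘ v) : RS a)) := by
  classical
  set w : RS a := fun i v => x i (e ∘ v) with hw
  -- tuples which meet the component are inside
  have hin : ∀ i (t : Fin (a i) → ℕ), x i t = true → (∃ j n, t j = e n) →
      ∃ v : Fin (a i) → ℕ, t = e ∘ v := by
    rintro i t ht ⟨j, n, hj⟩
    have h1 : ∀ l, ∃ n, e n = t l := by
      intro l
      rw [← hu]
      exact Relation.ReflTransGen.tail ((hu _).2 ⟨n, hj.symm⟩) ⟨i, t, ht, ⟨j, rfl⟩, l, rfl⟩
    choose v hv using h1
    exact ⟨v, funext fun l => (hv l).symm⟩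
  have hitc : ∀ p q, Itc x (e p) (e q) → Itc w p q := by
    intro p q h i v
    show x i (e ∘ (⇑(Equiv.swap p q) ∘ v)) = x i (e ∘ v)
    rw [← h i (e ∘ v)]
    congr 1
    funext k
    show e (Equiv.swap p q (v k)) = Equiv.swap (e p) (e q) (e (v k))
    by_cases h1 : v k = p
    · rw [h1, Equiv.swap_apply_left, Equiv.swap_apply_left]
    · by_cases h2 : v k = q
      · rw [h2, Equiv.swap_apply_right, Equiv.swap_apply_right]
      · rw [Equiv.swap_apply_of_ne_of_ne h1 h2, Equiv.swap_apply_of_ne_of_ne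
          (fun h => h1 (he h)) (fun h => h2 (he h))]
  refine lim_of_conn (x := w) ?_ ?_
  · intro i y
    obtain ⟨F, hF⟩ := hx i (e y)
    refine ⟨insert y (F.preimage e he.injOn), fun v hv hj l => ?_⟩
    by_cases hly : v l = y
    · exact ⟨y, Finset.mem_insert_self _ _, hly ▸ itc_refl w _⟩
    obtain ⟨j, hj⟩ := hj
    obtain ⟨s, hs, h1⟩ := hF (e ∘ v) hv ⟨j, by show e (v j) = e y; rw [hj]⟩ l
    by_cases hse : ∃ s', e s' = s
    · obtain ⟨s', rfl⟩ := hse
      exact ⟨s', Finset.mem_insert_of_mem (Finset.mem_preimage.2 hs), hitc _ _ h1⟩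
    · exfalso
      have h2 : x i (⇑(Equiv.swap (e (v l)) s) ∘ (e ∘ v)) = true := by
        have := h1 i (e ∘ v)
        exact this.trans hv
      have h3 : (⇑(Equiv.swap (e (v l)) s) ∘ (e ∘ v)) j = e y := by
        show Equiv.swap (e (v l)) s (e (v j)) = e y
        rw [hj]
        refine Equiv.swap_apply_of_ne_of_ne (fun h => hly (he h).symm) fun h => hse ⟨y, h⟩
      have h4 : (⇑(Equiv.swap (e (v l)) s) ∘ (e ∘ v)) l = s := by
        show Equiv.swap (e (v l)) s (e (v l)) = s
        rw [Equiv.swap_apply_left]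
      obtain ⟨v', hv'⟩ := hin i _ h2 ⟨j, y, h3⟩
      apply hse
      refine ⟨v' l, ?_⟩
      have := congrFun hv' l
      rw [h4] at this
      exact this.symm
  · have h1 : ∀ p q, Lk x (e p) (e q) → Lk w p q := by
      rintro p q ⟨i, t, ht, ⟨j, hj⟩, l, hl⟩
      obtain ⟨v, rfl⟩ := hin i t ht ⟨j, p, hj⟩
      exact ⟨i, v, ht, ⟨j, he hj⟩, l, he hl⟩
    obtain ⟨n0, hn0⟩ := (hu u).1 Relation.ReflTransGen.refl
    have h2 : ∀ z, Relation.ReflTransGen (Lk x) u z → ∀ q, e q = z →
        Relation.ReflTransGen (Lk w) n0 q := by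
      intro z hz
      induction hz with
      | refl =>
        intro q hq
        rw [he (hn0.trans hq.symm)]
      | @tail b c hb hbc ih =>
        intro q hq
        obtain ⟨p, hp⟩ := (hu b).1 hb
        refine Relation.ReflTransGen.tail (ih p hp) (h1 p q ?_)
        rw [hp, hq]
        exact hbc
    have h3 : ∀ q, Relation.ReflTransGen (Lk w) n0 q := fun q =>
      h2 (e q) ((hu _).2 ⟨q, rfl⟩) q rfl
    intro p q
    exact (Pool.Agent.Helper27.CF.Conn.symm (x := w) (h3 p)).trans (h3 q)

/-! ### Positive arities -/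

/-- positive arities -/
def pa (a : ℕ → ℕ) (i : ℕ) : ℕ := if a i = 0 then 1 else a i

theorem pa_pos (a : ℕ → ℕ) (i : ℕ) : 0 < pa a i := by
  unfold pa
  split_ifs with h
  · exact Nat.one_pos
  · omega

theorem pa_eq {i : ℕ} (h : ¬ a i = 0) : a i = pa a i := by
  unfold pa
  rw [if_neg h]

theorem pa_one {i : ℕ} (h : a i = 0) : pa a i = 1 := by
  unfold pa
  rw [if_pos h]

/-- relations of arity zero become unary -/
def cP (x : RS a) : RS (pa a) := fun i v =>
  if h : a i = 0 then x i (fun k => (Fin.cast h k).elim0)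
  else x i (fun k => v (Fin.cast (pa_eq h) k))

open Classical in
/-- and back -/
noncomputable def dP (z : RS (pa a)) : RS a := fun i v =>
  if h : a i = 0 then decide (∃ u, z i (fun _ => u) = true)
  else z i (fun k => v (Fin.cast (pa_eq h).symm k))

theorem dP_cP (x : RS a) : dP (cP x) = x := by
  funext i v
  unfold dP cP
  by_cases h : a i = 0
  · simp only [dif_pos h, exists_const, Bool.decide_eq_true]
    congr 1
    funext k
    exact (Fin.cast h k).elim0
  · simp only [dif_neg h]
    rfl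

theorem cP_comp {x : RS a} {σ : Equiv.Perm ℕ} (hσ : σ ∈ AS x) : σ ∈ AS (cP x) := by
  intro i v
  unfold cP
  by_cases h : a i = 0
  · simp only [dif_pos h]
  · simp only [dif_neg h]
    exact hσ i _

theorem canon_P : Pool.Agent.TH425.FF.PCanon (fun _ : List ℕ => (cP : RS a → RS (pa a)))
    (fun _ => dP) := by
  refine ⟨fun _ => ?_, fun _ => ?_, fun σ _ x => ?_, fun σ _ z => ?_⟩
  · refine measurable_pi_iff.2 fun i => measurable_pi_iff.2 fun v => ?_
    unfold cP
    by_cases h : a i = 0
    · simp only [dif_pos h]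
      exact (measurable_pi_apply _).comp (measurable_pi_apply i)
    · simp only [dif_neg h]
      exact (measurable_pi_apply _).comp (measurable_pi_apply i)
  · refine measurable_pi_iff.2 fun i => measurable_pi_iff.2 fun v => ?_
    unfold dP
    by_cases h : a i = 0
    · simp only [dif_pos h]
      have h1 : MeasurableSet {z : RS (pa a) | ∃ u, z i (fun _ => u) = true} := by
        have h2 : {z : RS (pa a) | ∃ u, z i (fun _ => u) = true} =
            ⋃ u : ℕ, {z : RS (pa a) | z i (fun _ => u) = true} := by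
          ext z
          simp
        rw [h2]
        refine MeasurableSet.iUnion fun u => ?_
        have h3 : Measurable fun z : RS (pa a) => z i (fun _ => u) :=
          (measurable_pi_apply _).comp (measurable_pi_apply i)
        exact h3 (measurableSet_singleton true)
      classical
      refine measurable_to_countable' fun b => ?_
      cases b with
      | true =>
        have h4 : (fun z : RS (pa a) => decide (∃ u, z i (fun _ => u) = true)) ⁻¹' {true} =
            {z : RS (pa a) | ∃ u, z i (fun _ => u) = true} := by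
          ext z
          simp
        rw [h4]
        exact h1
      | false =>
        have h4 : (fun z : RS (pa a) => decide (∃ u, z i (fun _ => u) = true)) ⁻¹' {false} =
            {z : RS (pa a) | ∃ u, z i (fun _ => u) = true}ᶜ := by
          ext z
          simp
        rw [h4]
        exact h1.compl
    · simp only [dif_neg h]
      exact (measurable_pi_apply _).comp (measurable_pi_apply i)
  · funext i v
    show cP (act σ x) i v = cP x i (⇑σ.symm ∘ v)
    unfold cP act
    by_cases h : a i = 0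
    · simp only [dif_pos h]
      congr 1
      funext k
      exact (Fin.cast h k).elim0
    · simp only [dif_neg h]
      rfl
  · funext i v
    show dP (act σ z) i v = dP z i (⇑σ.symm ∘ v)
    unfold dP act
    by_cases h : a i = 0
    · simp only [dif_pos h]
      congr 1
      refine propext ⟨?_, ?_⟩
      · rintro ⟨u, hu⟩
        exact ⟨σ.symm u, hu⟩
      · rintro ⟨u, hu⟩
        refine ⟨σ u, ?_⟩
        rw [← hu]
        congr 1
        funext k
        simp
    · simp only [dif_neg h]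
      rfl

theorem lfm_cP {x : RS a} (hx : LFM x) : LFM (cP x) := by
  intro i y
  by_cases h : a i = 0
  · refine ⟨{y}, fun t _ hj l => ⟨y, Finset.mem_singleton_self y, ?_⟩⟩
    obtain ⟨j, hj⟩ := hj
    have h1 : l = j := by
      have h2 := pa_one h
      apply Fin.ext
      have := l.2
      have := j.2
      omega
    rw [h1, hj]
    exact itc_refl _ y
  · obtain ⟨F, hF⟩ := hx i y
    refine ⟨F, fun t ht hj l => ?_⟩
    unfold cP at ht
    simp only [dif_neg h] at ht
    obtain ⟨j, hj⟩ := hj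
    obtain ⟨s, hs, h1⟩ := hF _ ht ⟨Fin.cast (pa_eq h).symm j, by simpa using hj⟩
      (Fin.cast (pa_eq h).symm l)
    refine ⟨s, hs, ?_⟩
    have h2 : Itc x (t l) s := by simpa using h1
    exact cP_comp h2

/-- the class -/
def LW (x : RS a) : Prop := Pool.Agent.TH425.FF.PExp (fun _ : List ℕ => (cP : RS a → RS (pa a)))
    (fun _ => dP) (Pool.Agent.Helper27.CF.CompIn
      fun x : RS (pa a) => NoFreeM (AS x) ∨ LimM (AS x)) x

theorem lw_vcu (a : ℕ → ℕ) : VCu (LW : RS a → Prop) := by
  refine Pool.Agent.TH425.FF.pexp_vcu canon_P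
    (Pool.Agent.Helper27.CF.comp_vcu (pa_pos a) (base_vcu _)) ?_ ?_
  · exact (Pool.Agent.Helper27.CF.comp_coan (base_coan _) (base_inv _)).1
  · exact (Pool.Agent.Helper27.CF.comp_coan (base_coan _) (base_inv _)).2

theorem lw_coan (a : ℕ → ℕ) : Coan (LW : RS a → Prop) :=
  Pool.Agent.TH425.FF.pexp_coan canon_P
    (Pool.Agent.Helper27.CF.comp_coan (base_coan _) (base_inv _)).1

theorem lw_inv (a : ℕ → ℕ) : Inv (LW : RS a → Prop) :=
  Pool.Agent.TH425.FF.pexp_inv canon_P
    (Pool.Agent.Helper27.CF.comp_coan (base_coan _) (base_inv _)).2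

/-- both classes -/
def WW (n : ℕ) (x : RS a) : Prop := (n = 0 ∧ (NoFreeM (AS x) ∨ LimM (AS x))) ∨ (n ≠ 0 ∧ LW x)

theorem ww_zero : (WW 0 : RS a → Prop) = fun x => NoFreeM (AS x) ∨ LimM (AS x) := by
  funext x
  unfold WW
  simp

theorem ww_succ (n : ℕ) : (WW (n + 1) : RS a → Prop) = LW := by
  funext x
  unfold WW
  simp

theorem vc_WW (a : ℕ → ℕ) : VC (fun x : RS a => ∃ n, WW n x) := by
  have h1 : ∀ n, VCu (WW n : RS a → Prop) := by
    intro n
    cases n with
    | zero => rw [ww_zero]; exact base_vcu a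
    | succ n => rw [ww_succ]; exact lw_vcu a
  have h2 : ∀ n, Coan (WW n : RS a → Prop) := by
    intro n
    cases n with
    | zero => rw [ww_zero]; exact base_coan a
    | succ n => rw [ww_succ]; exact lw_coan a
  have h3 : ∀ n, Inv (WW n : RS a → Prop) := by
    intro n
    cases n with
    | zero => rw [ww_zero]; exact base_inv a
    | succ n => rw [ww_succ]; exact lw_inv a
  exact vs_plain a _ (Pool.Agent.TH425.FF.cun_vcu _ h1 h2 h3)

theorem lw_of_lfm {x : RS a} (hx : LFM x) : LW x :=
  ⟨[], fun u e he hu => Or.inr (comp_of_lfm (lfm_cP hx) u e he hu), dP_cP x⟩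

end Pool.Agent.H667.IP
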