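import Pool.Agent.H667.FI.Rig
import Pool.Graph.R_pool_sql_team_seeded_620a6dc7.Helper27.CF.Comp

set_option autoImplicit false

/-!
Naming interchangeable points: if Vaught's conjecture holds for a class `V` of structures, then it
holds for the structures all of whose expansions by unary predicates which separate interchangeable
points are in `V`.
-/

namespace Pool.Agent.H667.IP

open Set MeasureTheory
open Pool.Agent.H533R2.VO (RS RIso VC Dich)
open Pool.Agent.H533R2.VS
open Pool.Agent.Helper27.CF (Cli Complete Aut)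
open Pool.Agent.H565R2.FO2 (Interp)
open Pool.Agent.H667.FI (IsAut Sw Enm sw_refl sw_symm sw_trans aut_of_sw sw_map exists_enm enm_unique)

/-- The language with relations `i` of arity `b i`. -/
abbrev Lb (b : ℕ → ℕ) : FirstOrder.Language.{0, 0} := ⟨fun _ => Empty, fun k => {i : ℕ // b i = k}⟩

/-- The structure as an interpretation. -/
def it {b : ℕ → ℕ} (w : RS b) : Interp (Lb b) ℕ :=
  fun _ R v => w R.1 (fun j => v (Fin.cast R.2 j)) = true

theorem map_it {b : ℕ → ℕ} {w w' : RS b} {g : ℕ → ℕ} (h : ∀ i (v : Fin (b i) → ℕ),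
    w' i (g ∘ v) = w i v) (n : ℕ) (R : (Lb b).Relations n) (v : Fin n → ℕ) :
    it w n R v ↔ it w' n R (fun k => g (v k)) := by
  obtain ⟨i, hi⟩ := R
  subst hi
  show w i v = true ↔ w' i (g ∘ v) = true
  rw [h]

theorem of_it {b : ℕ → ℕ} {w w' : RS b} {g : ℕ → ℕ} (h : ∀ n (R : (Lb b).Relations n)
    (v : Fin n → ℕ), it w n R v ↔ it w' n R (fun k => g (v k))) (i : ℕ) (v : Fin (b i) → ℕ) :
    w' i (g ∘ v) = w i v := by
  have h1 : w i v = true ↔ w' i (g ∘ v) = true := h (b i) ⟨i, rfl⟩ v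
  rw [Bool.eq_iff_iff]
  exact h1.symm

theorem aut_it {b : ℕ → ℕ} (w : RS b) (g : ℕ ≃ ℕ) :
    IsAut (it w) g ↔ ∀ i (v : Fin (b i) → ℕ), w i (⇑g ∘ v) = w i v :=
  ⟨fun h => of_it h, fun h => map_it h⟩

/-- The points `y` and `z` are interchangeable: their transposition is an automorphism. -/
def Itc {a : ℕ → ℕ} (x : RS a) (y z : ℕ) : Prop :=
  ∀ (i : ℕ) (v : Fin (a i) → ℕ), x i (⇑(Equiv.swap y z) ∘ v) = x i v

theorem itc_iff {a : ℕ → ℕ} (x : RS a) (y z : ℕ) : Itc x y z ↔ Sw (it x) y z :=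
  (aut_it x (Equiv.swap y z)).symm

/-- The unary predicates separate interchangeable points. -/
def Sep {a : ℕ → ℕ} (x : RS a) (p : ℕ → ℕ → Bool) : Prop :=
  ∀ y z, Itc x y z → (∀ k, p k y = p k z) → y = z

/-- All expansions by unary predicates which separate interchangeable points are in `V`. -/
def Named {a : ℕ → ℕ} (V : RS (a1 a) → Prop) (x : RS a) : Prop :=
  ∀ p : ℕ → ℕ → Bool, Sep x p → V (cmb x p)

theorem sw_cmb {a : ℕ → ℕ} {x : RS a} {u : ℕ → ℕ → Bool} {y z : ℕ} (h : Itc x y z)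
    (hu : ∀ k, u k y = u k z) : Sw (it (cmb x u)) y z := by
  rw [← itc_iff]
  intro n t
  unfold cmb
  split_ifs with hn
  · exact h (n / 2) _
  · show u (n / 2) (Equiv.swap y z (t ⟨0, a1_odd' a hn⟩)) = u (n / 2) (t ⟨0, a1_odd' a hn⟩)
    by_cases h1 : t ⟨0, a1_odd' a hn⟩ = y
    · rw [h1, Equiv.swap_apply_left]; exact (hu _).symm
    · by_cases h2 : t ⟨0, a1_odd' a hn⟩ = z
      · rw [h2, Equiv.swap_apply_right]; exact hu _
      · rw [Equiv.swap_apply_of_ne_of_ne h1 h2]

/-- The predicates `u` together with those for the values of `e`. -/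
def jn (u : ℕ → ℕ → Bool) (e : ℕ → ℕ) : ℕ → ℕ → Bool := fun k z =>
  if k % 2 = 0 then u (k / 2) z else decide (e z = k / 2)

theorem jn_even (u : ℕ → ℕ → Bool) (e : ℕ → ℕ) (k z : ℕ) : jn u e (2 * k) z = u k z := by
  unfold jn
  rw [if_pos (by omega)]
  congr 1
  omega

theorem jn_odd (u : ℕ → ℕ → Bool) (e : ℕ → ℕ) (k z : ℕ) :
    jn u e (2 * k + 1) z = decide (e z = k) := by
  unfold jn
  rw [if_neg (by omega)]
  have : (2 * k + 1) / 2 = k := by omega
  rw [this]

theorem jn_inj {u u' : ℕ → ℕ → Bool} {e e' : ℕ → ℕ} (h : jn u e = jn u' e') :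
    u = u' ∧ e = e' := by
  constructor
  · funext k z
    rw [← jn_even u e, ← jn_even u' e', h]
  · funext z
    have h1 := jn_odd u e (e z) z
    rw [h, jn_odd] at h1
    simp only [decide_true, decide_eq_true_eq] at h1
    exact h1.symm

theorem sep_jn {a : ℕ → ℕ} {x : RS a} {u : ℕ → ℕ → Bool} {e : ℕ → ℕ}
    (he : Enm (it (cmb x u)) e) : Sep x (jn u e) := by
  intro y z hyz hp
  refine he.1 y z (sw_cmb hyz fun k => ?_) ?_
  · rw [← jn_even u e, ← jn_even u e]; exact hp _
  · have h1 := hp (2 * e z + 1)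
    rw [jn_odd, jn_odd] at h1
    simp only [decide_true, decide_eq_true_eq] at h1
    exact h1

theorem cont_jn : Continuous fun q : (ℕ → ℕ → Bool) × (ℕ → ℕ) => jn q.1 q.2 := by
  refine continuous_pi fun k => continuous_pi fun z => ?_
  unfold jn
  by_cases hk : k % 2 = 0
  · simp only [if_pos hk]
    exact (continuous_apply z).comp ((continuous_apply _).comp continuous_fst)
  · simp only [if_neg hk]
    have h1 : Continuous fun q : (ℕ → ℕ → Bool) × (ℕ → ℕ) => q.2 z :=
      (continuous_apply z).comp continuous_snd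
    exact (continuous_of_discreteTopology (f := fun m : ℕ => decide (m = k / 2))).comp h1

theorem meas_it {b : ℕ → ℕ} (n : ℕ) (R : (Lb b).Relations n) (v : Fin n → ℕ) :
    Measurable fun w : RS b => it w n R v := by
  obtain ⟨i, hi⟩ := R
  subst hi
  have h1 : Measurable fun w : RS b => w i v := (measurable_pi_apply v).comp (measurable_pi_apply i)
  exact measurableSet_setOfPred.1 (measurableSet_eq_fun h1 measurable_const)

theorem meas_sw {b : ℕ → ℕ} (y z : ℕ) : Measurable fun w : RS b => Sw (it w) y z := by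
  unfold Sw IsAut
  refine Measurable.forall fun n => Measurable.forall fun R => Measurable.forall fun v => ?_
  exact (meas_it n R v).iff (meas_it n R _)

theorem meas_enm {b : ℕ → ℕ} : MeasurableSet {q : RS b × (ℕ → ℕ) | Enm (it q.1) q.2} := by
  have h1 : ∀ x, Measurable fun q : RS b × (ℕ → ℕ) => q.2 x := fun x =>
    (measurable_pi_apply x).comp measurable_snd
  have h2 : ∀ x y, Measurable fun q : RS b × (ℕ → ℕ) => Sw (it q.1) x y := fun x y =>
    (meas_sw x y).comp measurable_fst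
  have h3 : ∀ x y, Measurable fun q : RS b × (ℕ → ℕ) => q.2 x = q.2 y := fun x y =>
    measurableSet_setOfPred.1 (measurableSet_eq_fun (h1 x) (h1 y))
  have h4 : ∀ x n, Measurable fun q : RS b × (ℕ → ℕ) => q.2 x = n := fun x n =>
    measurableSet_setOfPred.1 (measurableSet_eq_fun (h1 x) measurable_const)
  apply measurableSet_setOfPred.2
  unfold Enm
  refine Measurable.and ?_ ?_
  · exact Measurable.forall fun x => Measurable.forall fun y =>
      (h2 x y).imp ((h3 x y).imp measurable_const)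
  · exact Measurable.forall fun x => Measurable.forall fun n =>
      (h4 x (n + 1)).imp (Measurable.exists fun y => (h2 x y).and (h4 y n))

theorem enm_map {b : ℕ → ℕ} {w w' : RS b} (g : ℕ ≃ ℕ) (h : ∀ i (v : Fin (b i) → ℕ),
    w' i (⇑g ∘ v) = w i v) {e e' : ℕ → ℕ} (hee : ∀ z, e' (g z) = e z) :
    Enm (it w) e ↔ Enm (it w') e' := by
  have hs := fun x y => sw_map (I := it w) (I' := it w') g (map_it h) x y
  constructor
  · rintro ⟨h1, h2⟩
    refine ⟨fun x y hxy he => ?_, fun x n hn => ?_⟩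
    · obtain ⟨x, rfl⟩ := g.surjective x
      obtain ⟨y, rfl⟩ := g.surjective y
      rw [hee, hee] at he
      rw [h1 x y ((hs x y).2 hxy) he]
    · obtain ⟨x, rfl⟩ := g.surjective x
      rw [hee] at hn
      obtain ⟨y, hy, hy'⟩ := h2 x n hn
      exact ⟨g y, (hs x y).1 hy, by rw [hee, hy']⟩
  · rintro ⟨h1, h2⟩
    refine ⟨fun x y hxy he => ?_, fun x n hn => ?_⟩
    · rw [← hee, ← hee] at he
      exact g.injective (h1 _ _ ((hs x y).1 hxy) he)
    · rw [← hee] at hn
      obtain ⟨y, hy, hy'⟩ := h2 _ n hn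
      obtain ⟨y, rfl⟩ := g.surjective y
      exact ⟨y, (hs x y).2 hy, by rw [← hee, hy']⟩

theorem polish_rs (b : ℕ → ℕ) : PolishSpace (RS b) := by
  have h1 : SecondCountableTopology (RS b) := inferInstance
  have h2 : TopologicalSpace.IsCompletelyMetrizableSpace (RS b) := inferInstance
  exact {}

theorem polish_nn : PolishSpace (ℕ → ℕ) := by
  have h1 : SecondCountableTopology (ℕ → ℕ) := inferInstance
  have h2 : TopologicalSpace.IsCompletelyMetrizableSpace (ℕ → ℕ) := inferInstance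
  exact {}

theorem polish_nnb : PolishSpace (ℕ → ℕ → Bool) := by
  have h1 : SecondCountableTopology (ℕ → ℕ → Bool) := inferInstance
  have h2 : TopologicalSpace.IsCompletelyMetrizableSpace (ℕ → ℕ → Bool) := inferInstance
  exact {}

theorem borel_rs (b : ℕ → ℕ) : BorelSpace (RS b) := by
  have b0 : ∀ i, BorelSpace ((Fin (b i) → ℕ) → Bool) := fun i => Pi.borelSpace
  exact Pi.borelSpace

/-- The main map. -/
def Th {a : ℕ → ℕ} (q : RS (a1 a) × (ℕ → ℕ)) : RS (a1 a) := cmb (evn q.1) (jn (odd q.1) q.2)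

theorem uiso_symm {a : ℕ → ℕ} {x y : US a} (h : UIso x y) : UIso y x := by
  obtain ⟨σ, h1, h2⟩ := h
  refine ⟨σ.symm, fun i v => ?_, fun i u => ?_⟩
  · have h3 : ⇑σ ∘ (⇑σ.symm ∘ v) = v := by
      funext k
      simp
    rw [← h1, h3]
  · rw [← h2]
    simp

/-- The class of the enumerated structures. -/
def Kp {a : ℕ → ℕ} (B : Set (US a)) : Set (RS (a1 a) × (ℕ → ℕ)) :=
  {q | (evn q.1, odd q.1) ∈ B ∧ Enm (it q.1) q.2}

/-- The class of their codes. -/
def Bp {a : ℕ → ℕ} (B : Set (US a)) : Set (US (a1 a)) :=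
  {y | y.1 ∈ Th '' Kp B ∧ y.2 = fun _ _ => false}

section

variable {a : ℕ → ℕ}

theorem evn_th (q : RS (a1 a) × (ℕ → ℕ)) : evn (Th q) = evn q.1 :=
  ((t_CMB a).1 _ _).1

theorem odd_th (q : RS (a1 a) × (ℕ → ℕ)) : odd (Th q) = jn (odd q.1) q.2 :=
  ((t_CMB a).1 _ _).2

theorem cmb_eo (w : RS (a1 a)) : cmb (evn w) (odd w) = w := (t_CMB a).2.1 w

theorem th_inj : Function.Injective (Th (a := a)) := by
  intro q q' h
  have h1 : evn q.1 = evn q'.1 := by rw [← evn_th, ← evn_th, h]
  have h2 : jn (odd q.1) q.2 = jn (odd q'.1) q'.2 := by rw [← odd_th, ← odd_th, h]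
  obtain ⟨h3, h4⟩ := jn_inj h2
  refine Prod.ext ?_ h4
  rw [← cmb_eo q.1, ← cmb_eo q'.1, h1, h3]

theorem th_cont : Continuous (Th (a := a)) := by
  obtain ⟨-, -, h3, h4, h5, -⟩ := t_CMB a
  have h6 : Continuous fun q : RS (a1 a) × (ℕ → ℕ) =>
      ((evn q.1, jn (odd q.1) q.2) : US a) :=
    (h3.comp continuous_fst).prodMk (cont_jn.comp ((h4.comp continuous_fst).prodMk continuous_snd))
  exact h5.comp h6

theorem bp_meas {B : Set (US a)} (hB : MeasurableSet B) : MeasurableSet (Bp B) := by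
  have p1 := polish_rs (a1 a)
  have p2 := polish_nn
  have p3 := polish_nnb
  have b1 := borel_rs (a1 a)
  have b2 : BorelSpace (ℕ → ℕ) := inferInstance
  have b3 : BorelSpace (RS (a1 a) × (ℕ → ℕ)) := inferInstance
  obtain ⟨-, -, h3, h4, h5, -⟩ := t_CMB a
  have hK : MeasurableSet (Kp B) := by
    refine MeasurableSet.inter ?_ meas_enm
    exact ((h3.measurable.prodMk h4.measurable).comp measurable_fst) hB
  have h1 : MeasurableSet (Th '' Kp B) :=
    hK.image_of_continuousOn_injOn th_cont.continuousOn (th_inj.injOn)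
  have h2 : MeasurableSet {y : US (a1 a) | y.2 = fun _ _ => false} :=
    (isClosed_eq continuous_snd continuous_const).measurableSet
  exact (measurable_fst h1).inter h2

theorem bp_inv {B : Set (US a)} (hinv : ∀ x y, UIso x y → (x ∈ B ↔ y ∈ B)) {y y' : US (a1 a)}
    (h : UIso y y') (hy : y ∈ Bp B) : y' ∈ Bp B := by
  obtain ⟨⟨⟨w, e⟩, ⟨hw1, hw2⟩, hw3⟩, hy2⟩ := hy
  obtain ⟨σ, h1, h2⟩ := h
  have hR : RIso (cmb (evn y.1) (odd y.1)) (cmb (evn y'.1) (odd y'.1)) := by
    rw [cmb_eo, cmb_eo]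
    exact ⟨σ, h1⟩
  obtain ⟨τ, h3, h4⟩ := ((t_CMB a).2.2.2.2.2 (evn y.1, odd y.1) (evn y'.1, odd y'.1)).1 hR
  simp only at h3 h4 hw1 hw2
  have e1 : evn y.1 = evn w := by rw [← hw3, evn_th]
  have e2 : odd y.1 = jn (odd w) e := by rw [← hw3, odd_th]
  let u' : ℕ → ℕ → Bool := fun k z => odd y'.1 (2 * k) z
  let e' : ℕ → ℕ := fun z => e (τ.symm z)
  let w' : RS (a1 a) := cmb (evn y'.1) u'
  have ev' : evn w' = evn y'.1 := ((t_CMB a).1 _ _).1
  have od' : odd w' = u' := ((t_CMB a).1 _ _).2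
  have hu' : ∀ k z, u' k (τ z) = odd w k z := by
    intro k z
    show odd y'.1 (2 * k) (τ z) = _
    rw [h4, e2, jn_even]
  have hodd : odd y'.1 = jn u' e' := by
    funext k z
    rcases Nat.even_or_odd' k with ⟨m, rfl | rfl⟩
    · rw [jn_even]
    · rw [jn_odd]
      obtain ⟨z, rfl⟩ := τ.surjective z
      rw [h4, e2, jn_odd]
      simp only [e', Equiv.symm_apply_apply]
  have hU : UIso (evn w, odd w) (evn w', odd w') := by
    refine ⟨τ, fun i v => ?_, fun i z => ?_⟩
    · simp only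
      rw [ev', h3, e1]
    · simp only
      rw [od', hu']
  obtain ⟨ρ, hρ⟩ : ∃ ρ : Equiv.Perm ℕ, ρ = τ := ⟨τ, rfl⟩
  have hww : ∀ i (v : Fin (a1 a i) → ℕ), w' i (⇑τ ∘ v) = w i v := by
    intro n t
    rw [← cmb_eo w]
    show cmb (evn y'.1) u' n (⇑τ ∘ t) = cmb (evn w) (odd w) n t
    unfold cmb
    split_ifs with hn
    · rw [← e1, ← h3]
      rfl
    · show u' (n / 2) (τ (t ⟨0, a1_odd' a hn⟩)) = _
      rw [hu']
  refine ⟨⟨(w', e'), ⟨?_, ?_⟩, ?_⟩, ?_⟩
  · exact (hinv _ _ hU).1 hw1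
  · refine (enm_map τ hww fun z => ?_).1 hw2
    simp only [e', Equiv.symm_apply_apply]
  · show cmb (evn w') (jn (odd w') e') = y'.1
    rw [ev', od', ← hodd, cmb_eo]
  · funext i u
    obtain ⟨u, rfl⟩ := σ.surjective u
    rw [h2, hy2]

theorem named_vcu {V : RS (a1 a) → Prop} (hV : VCu V) : VCu (Named V) := by
  intro B hB hinv hBV
  have h6 := (t_CMB a).2.2.2.2.2
  have hmem : ∀ y ∈ Bp B, ∃ w e, (evn w, odd w) ∈ B ∧ Enm (it w) e ∧ Th (w, e) = y.1 := by
    rintro y ⟨⟨⟨w, e⟩, ⟨h1, h2⟩, h3⟩, -⟩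
    exact ⟨w, e, h1, h2, h3⟩
  have hV1 : ∀ y ∈ Bp B, V y.1 := by
    intro y hy
    obtain ⟨w, e, h1, h2, h3⟩ := hmem y hy
    rw [← h3]
    have h4 : Named V (evn w) := hBV _ h1
    refine h4 _ (sep_jn (u := odd w) ?_)
    rw [cmb_eo]
    exact h2
  rcases hV (Bp B) (bp_meas hB)
    (fun y y' h => ⟨bp_inv hinv h, bp_inv hinv (uiso_symm h)⟩) hV1 with ⟨f, hf⟩ | ⟨g, hg1, hg2, hg3⟩
  · left
    refine ⟨fun n => (evn (f n).1, fun k => odd (f n).1 (2 * k)), fun x hx => ?_⟩
    obtain ⟨e, he⟩ := exists_enm (it (cmb x.1 x.2))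
    have e1 : evn (cmb x.1 x.2) = x.1 := ((t_CMB a).1 _ _).1
    have e2 : odd (cmb x.1 x.2) = x.2 := ((t_CMB a).1 _ _).2
    obtain ⟨n, σ, h1, -⟩ := hf (Th (cmb x.1 x.2, e), fun _ _ => false)
      ⟨⟨(cmb x.1 x.2, e), ⟨by simp only [e1, e2]; exact hx, he⟩, rfl⟩, rfl⟩
    have hR : RIso (cmb (evn (f n).1) (odd (f n).1))
        (cmb (evn (Th (cmb x.1 x.2, e))) (odd (Th (cmb x.1 x.2, e)))) := by
      rw [cmb_eo, cmb_eo]
      exact ⟨σ, h1⟩
    obtain ⟨τ, h3, h4⟩ := (h6 (evn (f n).1, odd (f n).1)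
      (evn (Th (cmb x.1 x.2, e)), odd (Th (cmb x.1 x.2, e)))).1 hR
    simp only at h3 h4
    rw [evn_th, e1] at h3
    rw [odd_th, e2] at h4
    refine ⟨n, τ, h3, fun k z => ?_⟩
    show x.2 k (τ z) = odd (f n).1 (2 * k) z
    rw [← h4, jn_even]
  · right
    refine ⟨fun c => (evn (g c).1, fun k => odd (g c).1 (2 * k)), ?_, fun c => ?_, fun c d h => ?_⟩
    · obtain ⟨-, -, c3, c4, -, -⟩ := t_CMB a
      refine (c3.comp (continuous_fst.comp hg1)).prodMk (continuous_pi fun k => ?_)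
      exact (continuous_apply _).comp (c4.comp (continuous_fst.comp hg1))
    · obtain ⟨w, e, h1, h2, h3⟩ := hmem _ (hg2 c)
      have : ((evn (g c).1, fun k => odd (g c).1 (2 * k)) : US a) = (evn w, odd w) := by
        refine Prod.ext ?_ ?_
        · show evn (g c).1 = evn w
          rw [← h3, evn_th]
        · show (fun k => odd (g c).1 (2 * k)) = odd w
          funext k z
          rw [← h3, odd_th, jn_even]
      show ((evn (g c).1, fun k => odd (g c).1 (2 * k)) : US a) ∈ B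
      rw [this]
      exact h1
    · obtain ⟨w, e, -, h2, h3⟩ := hmem _ (hg2 c)
      obtain ⟨w', e', -, h2', h3'⟩ := hmem _ (hg2 d)
      have q1 : ∀ k z, odd (g c).1 (2 * k) z = odd w k z := by
        intro k z
        rw [← h3, odd_th, jn_even]
      have q2 : ∀ k z, odd (g d).1 (2 * k) z = odd w' k z := by
        intro k z
        rw [← h3', odd_th, jn_even]
      have hU : UIso (evn w, odd w) (evn w', odd w') := by
        obtain ⟨σ, s1, s2⟩ := h
        refine ⟨σ, fun i v => ?_, fun k z => ?_⟩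
        · have := s1 i v
          simp only at this
          rw [← h3, ← h3', evn_th, evn_th] at this
          exact this
        · have := s2 k z
          simp only at this
          rw [q1, q2] at this
          exact this
      have hR := (h6 (evn w, odd w) (evn w', odd w')).2 hU
      simp only [cmb_eo] at hR
      obtain ⟨σ, hσ⟩ := hR
      have he1 : Enm (it w) (fun z => e' (σ z)) := (enm_map σ hσ fun z => rfl).2 h2'
      obtain ⟨k, hk1, hk2⟩ := enm_unique h2 he1
      have hk1' := (aut_it w k).1 hk1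
      let ρ : Equiv.Perm ℕ := k.trans σ
      have r1 : ∀ i (v : Fin (a1 a i) → ℕ), w' i (⇑ρ ∘ v) = w i v := by
        intro i v
        rw [← hk1' i v, ← hσ]
        rfl
      have r2 : ∀ z, e' (ρ z) = e z := fun z => hk2 z
      apply hg3
      have hT : RIso (g c).1 (g d).1 := by
        rw [← h3, ← h3']
        refine (h6 (evn w, jn (odd w) e) (evn w', jn (odd w') e')).2 ⟨ρ, fun i v => ?_, fun i z => ?_⟩
        · exact r1 (2 * i) _
        · show jn (odd w') e' i (ρ z) = jn (odd w) e i z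
          have r3 : ∀ m, odd w' m (ρ z) = odd w m z := fun m => r1 (2 * m + 1) _
          rcases Nat.even_or_odd' i with ⟨m, rfl | rfl⟩
          · rw [jn_even, jn_even, r3]
          · rw [jn_odd, jn_odd, r2]
      obtain ⟨σ', hσ'⟩ := hT
      refine ⟨σ', hσ', fun i u => ?_⟩
      rw [(hg2 c).2, (hg2 d).2]

theorem named_coan {V : RS (a1 a) → Prop} (hV : Coan V) : Coan (Named V) := by
  have p1 := polish_rs a
  have p2 := polish_nnb
  have b1 := borel_rs a
  have b2 : BorelSpace (ℕ → ℕ → Bool) := inferInstance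
  have b3 : BorelSpace (US a) := inferInstance
  have h5 := (t_CMB a).2.2.2.2.1
  have h1 : AnalyticSet {q : US a | ¬ V (cmb q.1 q.2)} := hV.preimage h5
  have h2 : MeasurableSet {q : US a | Sep q.1 q.2} := by
    apply measurableSet_setOfPred.2
    unfold Sep
    refine Measurable.forall fun y => Measurable.forall fun z => ?_
    refine Measurable.imp ?_ (Measurable.imp ?_ measurable_const)
    · have : (fun q : US a => Itc q.1 y z) = fun q : US a => Sw (it q.1) y z := by
        funext q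
        exact propext (itc_iff _ _ _)
      rw [this]
      exact (meas_sw y z).comp measurable_fst
    · refine Measurable.forall fun k => ?_
      have m1 : ∀ t, Measurable fun q : US a => q.2 k t := fun t =>
        (measurable_pi_apply t).comp ((measurable_pi_apply k).comp measurable_snd)
      exact measurableSet_setOfPred.1 (measurableSet_eq_fun (m1 y) (m1 z))
  have h3' : AnalyticSet ({q : US a | Sep q.1 q.2} ∩ {q : US a | ¬ V (cmb q.1 q.2)}) := by
    rw [Set.inter_eq_iInter]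
    refine AnalyticSet.iInter fun b => ?_
    cases b
    · exact h1
    · exact h2.analyticSet
  have h3 := h3'.image_of_continuous (continuous_fst (X := RS a) (Y := ℕ → ℕ → Bool))
  have h4 : {x : RS a | ¬ Named V x} =
      Prod.fst '' ({q : US a | Sep q.1 q.2} ∩ {q : US a | ¬ V (cmb q.1 q.2)}) := by
    ext x
    constructor
    · intro hx
      unfold Named at hx
      push Not at hx
      obtain ⟨p, hp1, hp2⟩ := hx
      exact ⟨(x, p), ⟨hp1, hp2⟩, rfl⟩
    · rintro ⟨⟨x, p⟩, ⟨hp1, hp2⟩, rfl⟩ h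
      exact hp2 (h p hp1)
  unfold Coan
  rw [h4]
  exact h3

theorem named_inv {V : RS (a1 a) → Prop} (hV : Inv V) : Inv (Named V) := by
  rintro x y ⟨σ, hσ⟩ hx p hp
  have hsw : ∀ u v, Itc x u v ↔ Itc y (σ u) (σ v) := by
    intro u v
    rw [itc_iff, itc_iff]
    exact sw_map σ (map_it hσ) u v
  have hq : Sep x fun k z => p k (σ z) := by
    intro u v huv h
    exact σ.injective (hp _ _ ((hsw u v).1 huv) h)
  refine hV _ _ ?_ (hx _ hq)
  exact ((t_CMB a).2.2.2.2.2 (x, fun k z => p k (σ z)) (y, p)).2 ⟨σ, hσ, fun i u => rfl⟩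

/-- Limits of automorphisms modulo interchangeability meet all classes. -/
def CliMod (x : RS a) : Prop :=
  ∀ f : ℕ → ℕ, (∀ n, ∃ σ : Equiv.Perm ℕ, (∀ i (v : Fin (a i) → ℕ), x i (⇑σ ∘ v) = x i v) ∧
    ∀ i < n, Itc x (σ i) (f i)) → ∀ y, ∃ z, Itc x (f z) y

theorem named_of_mod {x : RS a} (hx : CliMod x) : Named Cli x := by
  intro p hp f hf
  have hev : evn (cmb x p) = x := ((t_CMB a).1 _ _).1
  have hod : odd (cmb x p) = p := ((t_CMB a).1 _ _).2
  have hA : ∀ σ ∈ Aut (cmb x p), (∀ i (v : Fin (a i) → ℕ), x i (⇑σ ∘ v) = x i v) ∧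
      ∀ k z, p k (σ z) = p k z := by
    intro σ hσ
    constructor
    · intro i v
      conv_rhs => rw [← hev]
      conv_lhs => rw [← hev]
      exact hσ (2 * i) _
    · intro k z
      conv_rhs => rw [← hod]
      conv_lhs => rw [← hod]
      exact hσ (2 * k + 1) _
  intro w
  have href : ∀ y, Itc x y y := fun y => (itc_iff x y y).2 (sw_refl _ y)
  obtain ⟨z, hz⟩ := hx f (fun n => by
    obtain ⟨σ, h1, h2⟩ := hf n
    exact ⟨σ, (hA σ h1).1, fun i hi => by rw [h2 i hi]; exact href _⟩) w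
  -- the preimages of `w`
  obtain ⟨σ, h1, h2⟩ := hf (z + 1)
  have hz1 : σ z = f z := h2 z (by omega)
  let t := σ.symm w
  have ht : σ t = w := by simp [t]
  obtain ⟨τ, g1, g2⟩ := hf (z + 1 + t + 1)
  have hz2 : τ z = f z := g2 z (by omega)
  have hwf : Sw (it x) (f z) w := (itc_iff _ _ _).1 hz
  have s1 : Sw (it x) z t := by
    have := (sw_map (I := it x) (I' := it x) σ (map_it (hA σ h1).1) z t).2
    rw [hz1, ht] at this
    exact this hwf
  let t' := τ.symm w
  have ht' : τ t' = w := by simp [t']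
  have s2 : Sw (it x) z t' := by
    have := (sw_map (I := it x) (I' := it x) τ (map_it (hA τ g1).1) z t').2
    rw [hz2, ht'] at this
    exact this hwf
  have htt : t = t' := by
    refine hp t t' ((itc_iff _ _ _).2 (sw_trans (sw_symm s1) s2)) fun k => ?_
    rw [← (hA σ h1).2 k t, ht, ← (hA τ g1).2 k t', ht']
  refine ⟨t, ?_⟩
  rw [← g2 t (by omega), htt, ht']

end

end Pool.Agent.H667.IP
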